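import Pool.Agent.H174.GP.StG
import Pool.Agent.H331.GP174.L5

/-! GP clt: central limit theorem for the block sequence -/

set_option autoImplicit false

open MeasureTheory ProbabilityTheory Finset Filter Topology

namespace Pool.Agent.H21.GP174

open Pool.Agent.H174.GP

lemma gen (ν : Measure ℝ) [IsProbabilityMeasure ν] {ι : Type} [Fintype ι] (e : ι → ℕ)
    (he : Function.Injective e) (c : ι → ℝ) :
    charFun ((Measure.infinitePi (fun _ : ℕ => ν)).map (fun ω : ℕ → ℝ => ∑ k, c k * ω (e k))) 1 =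
      ∏ k, charFun ν (c k) := by
  have hind : iIndepFun (fun (i : ℕ) (ω : ℕ → ℝ) => ω i) (Measure.infinitePi (fun _ : ℕ => ν)) :=
    iIndepFun_infinitePi (X := fun _ x => x) (fun _ => measurable_id)
  have hind2 : iIndepFun (fun (k : ι) (ω : ℕ → ℝ) => ω (e k))
      (Measure.infinitePi (fun _ : ℕ => ν)) := hind.precomp he
  have hind3 : iIndepFun (fun (k : ι) (ω : ℕ → ℝ) => c k * ω (e k))
      (Measure.infinitePi (fun _ : ℕ => ν)) :=
    hind2.comp (fun k x => c k * x) (fun k => measurable_const_mul (c k))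
  have hm : ∀ k : ι, Measurable (fun ω : ℕ → ℝ => c k * ω (e k)) := fun k => by fun_prop
  rw [hind3.charFun_map_fun_sum_eq_prod (fun k => (hm k).aemeasurable), Finset.prod_apply]
  refine Finset.prod_congr rfl fun k _ => ?_
  have hmap : (Measure.infinitePi (fun _ : ℕ => ν)).map (fun ω : ℕ → ℝ => ω (e k)) = ν :=
    Measure.infinitePi_map_eval _ (e k)
  rw [charFun_map_mul_comp (measurable_pi_apply (e k)).aemeasurable, hmap, mul_one]

/-- the vector of the first `n` blocks -/
noncomputable def TK (n K : ℕ) (ω : ℕ → ℝ) : EuclideanSpace ℝ (Fin n) :=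
  WithLp.toLp 2 (fun i : Fin n => Wb K ω (i + 1))

/-- the vector of the first `n` coordinates -/
noncomputable def TG (n : ℕ) (z : ℕ → ℝ) : EuclideanSpace ℝ (Fin n) :=
  WithLp.toLp 2 (fun i : Fin n => z (i + 1))

lemma S_range (ω : ℕ → ℝ) (m : ℕ) : S ω m = ∑ j ∈ range m, ω (j + 1) := by
  unfold S
  rw [Finset.range_eq_Ico, Finset.sum_Ico_add' (fun j => ω j) 0 m 1]
  rfl

lemma Wb_eq (K : ℕ) (ω : ℕ → ℝ) (i : ℕ) :
    Wb K ω (i + 1) = ∑ r : Fin K, (1 / Real.sqrt (2 * K)) * ω (K * i + r + 1) := by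
  unfold Wb
  rw [S_range, S_range, Nat.add_sub_cancel, mul_add, mul_one, sum_range_add, add_sub_cancel_left,
    ← Finset.mul_sum, ← Finset.sum_range (fun r => ω (K * i + r + 1))]
  ring

lemma meas_S (m : ℕ) : Measurable (fun ω : ℕ → ℝ => S ω m) := by
  unfold S
  exact Finset.measurable_sum _ fun i _ => measurable_pi_apply i

lemma meas_Wb (K i : ℕ) : Measurable (fun ω : ℕ → ℝ => Wb K ω i) := by
  unfold Wb
  exact ((meas_S _).sub (meas_S _)).div_const _

lemma meas_TK (n K : ℕ) : Measurable (TK n K) := by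
  unfold TK
  exact (WithLp.measurable_toLp 2 _).comp (measurable_pi_lambda _ fun i => meas_Wb K (i + 1))

lemma meas_TG (n : ℕ) : Measurable (TG n) := by
  unfold TG
  exact (WithLp.measurable_toLp 2 _).comp (measurable_pi_lambda _ fun i => measurable_pi_apply _)

lemma charFun_vec (μ : Measure (ℕ → ℝ)) (n : ℕ) (T : (ℕ → ℝ) → EuclideanSpace ℝ (Fin n))
    (hT : Measurable T) (t : EuclideanSpace ℝ (Fin n)) :
    charFun (μ.map T) t = charFun (μ.map (fun ω => ∑ i, t i * T ω i)) 1 := by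
  have hg : Measurable (fun ω => ∑ i, t i * T ω i) := by fun_prop
  rw [charFun_apply, charFun_apply_real, integral_map hT.aemeasurable (by fun_prop),
    integral_map hg.aemeasurable (by fun_prop)]
  refine integral_congr_ae (Filter.Eventually.of_forall fun ω => ?_)
  simp only [PiLp.inner_apply, RCLike.inner_apply, conj_trivial]
  push_cast
  ring_nf

lemma charFun_TK (n K : ℕ) (t : EuclideanSpace ℝ (Fin n)) :
    charFun (PP.map (TK n K)) t =
      ∏ i : Fin n, (charFun lap (t i * (1 / Real.sqrt (2 * K)))) ^ K := by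
  rw [charFun_vec PP n _ (meas_TK n K)]
  have h1 : (fun ω => ∑ i, t i * TK n K ω i) = fun ω : ℕ → ℝ =>
      ∑ k : Fin n × Fin K, (t k.1 * (1 / Real.sqrt (2 * K))) * ω (K * k.1 + k.2 + 1) := by
    funext ω
    rw [Fintype.sum_prod_type]
    refine Finset.sum_congr rfl fun i _ => ?_
    change t i * Wb K ω (i + 1) = _
    rw [Wb_eq, Finset.mul_sum]
    refine Finset.sum_congr rfl fun r _ => ?_
    ring
  rw [h1]
  unfold PP
  rw [gen lap (fun k : Fin n × Fin K => K * (k.1 : ℕ) + k.2 + 1) ?_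
    (fun k => t k.1 * (1 / Real.sqrt (2 * K))), Fintype.prod_prod_type]
  · refine Finset.prod_congr rfl fun i _ => ?_
    simp
  · rintro ⟨i, r⟩ ⟨i', r'⟩ h
    simp only at h
    have hr := r.isLt
    have hr' := r'.isLt
    have h2 : K * (i : ℕ) + r = K * (i' : ℕ) + r' := by omega
    have h3 : (i : ℕ) = i' := by
      have := congrArg (· / K) h2
      simp only [Nat.mul_add_div (by omega : 0 < K), Nat.div_eq_of_lt hr,
        Nat.div_eq_of_lt hr', add_zero] at this
      exact this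
    have h4 : (r : ℕ) = r' := by
      rw [h3] at h2
      omega
    exact Prod.ext (Fin.ext h3) (Fin.ext h4)

lemma charFun_TG (n : ℕ) (t : EuclideanSpace ℝ (Fin n)) :
    charFun (GA.map (TG n)) t = ∏ i : Fin n, charFun (gaussianReal 0 1) (t i) := by
  rw [charFun_vec GA n _ (meas_TG n)]
  unfold GA
  exact gen (gaussianReal 0 1) (fun i : Fin n => (i : ℕ) + 1) (by
    intro i j h
    simp only [Nat.add_right_cancel_iff] at h
    exact Fin.ext h) (fun i => t i)

lemma lim1 (s : ℝ) : Tendsto (fun K : ℕ => (charFun lap (s * (1 / Real.sqrt (2 * K)))) ^ K) atTop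
    (𝓝 (charFun (gaussianReal 0 1) s)) := by
  have h0 : charFun (gaussianReal 0 1) s = (Complex.exp ((s : ℂ) ^ 2 / 2))⁻¹ := by
    rw [charFun_gaussianReal, ← Complex.exp_neg]
    congr 1
    push_cast
    ring
  rw [h0]
  have h1 := (Complex.tendsto_one_add_div_pow_exp ((s : ℂ) ^ 2 / 2)).inv₀ (Complex.exp_ne_zero _)
  refine h1.congr' ?_
  filter_upwards [eventually_ge_atTop 1] with K hK
  rw [Pool.Agent.H331.GP174.gp_l5]
  have hK0 : (0 : ℝ) < K := by exact_mod_cast hK
  have h2 : (((s * (1 / Real.sqrt (2 * K)) : ℝ) : ℂ)) ^ 2 = (s : ℂ) ^ 2 / 2 / K := by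
    have h3 : (s * (1 / Real.sqrt (2 * K))) ^ 2 = s ^ 2 / 2 / K := by
      rw [mul_pow, div_pow, Real.sq_sqrt (by positivity)]
      field_simp
    have h4 : (((s * (1 / Real.sqrt (2 * K))) ^ 2 : ℝ) : ℂ) = ((s ^ 2 / 2 / K : ℝ) : ℂ) := by
      rw [h3]
    push_cast at h4 ⊢
    exact h4
  rw [h2, one_div, inv_pow]

/-- laws as probability measures -/
noncomputable def PK (n K : ℕ) : ProbabilityMeasure (EuclideanSpace ℝ (Fin n)) :=
  ⟨PP.map (TK n K), Measure.isProbabilityMeasure_map (meas_TK n K).aemeasurable⟩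

/-- the Gaussian law as a probability measure -/
noncomputable def PG (n : ℕ) : ProbabilityMeasure (EuclideanSpace ℝ (Fin n)) :=
  ⟨GA.map (TG n), Measure.isProbabilityMeasure_map (meas_TG n).aemeasurable⟩

lemma tend (n : ℕ) : Tendsto (fun K : ℕ => PK n K) atTop (𝓝 (PG n)) := by
  rw [ProbabilityMeasure.tendsto_iff_tendsto_charFun]
  intro t
  change Tendsto (fun K : ℕ => charFun (PP.map (TK n K)) t) atTop (𝓝 (charFun (GA.map (TG n)) t))
  simp only [charFun_TK]
  rw [charFun_TG]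
  exact tendsto_finsetProd _ fun i _ => lim1 (t i)

/-- the linear functions -/
noncomputable def LL (n x : ℕ) (v : EuclideanSpace ℝ (Fin n)) : ℝ :=
  ∑ i : Fin n, ((min ((i : ℕ) + 1) x : ℕ) : ℝ) * (v i / (((i : ℕ) + 1 : ℕ) : ℝ))

lemma LL_cont (n x : ℕ) : Continuous (LL n x) := by
  unfold LL
  fun_prop

lemma Ch_eq (y : ℕ → ℝ) (n x : ℕ) :
    Ch y n x = LL n x (WithLp.toLp 2 (fun i : Fin n => y (i + 1))) := by
  unfold Ch Cs LL
  have h := Finset.sum_range (fun j => ((min (j + 1) x : ℕ) : ℝ) * (y (j + 1) / ((j + 1 : ℕ) : ℝ)))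
    (n := n)
  have h2 : ∑ j ∈ Icc 1 n, ((min j x : ℕ) : ℝ) * (y j / (j : ℝ)) =
      ∑ j ∈ range n, ((min (j + 1) x : ℕ) : ℝ) * (y (j + 1) / ((j + 1 : ℕ) : ℝ)) := by
    rw [Finset.range_eq_Ico,
      Finset.sum_Ico_add' (fun j => ((min j x : ℕ) : ℝ) * (y j / (j : ℝ))) 0 n 1]
    rfl
  rw [h2, h]

theorem gp_clt (_h1 : S_L3) : Pool.Agent.H174.GP.S_clt := by
  intro n x0 η hη
  set F : Set (EuclideanSpace ℝ (Fin n)) := {v | ∀ x ∈ Finset.Icc x0 n, 0 ≤ LL n x v} with hF
  set U : Set (EuclideanSpace ℝ (Fin n)) := {v | ∀ x ∈ Finset.Icc x0 n, -1 < LL n x v} with hU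
  have hFc : IsClosed F := by
    have e : F = ⋂ x ∈ Finset.Icc x0 n, {v | 0 ≤ LL n x v} := by
      ext v
      simp [hF]
    rw [e]
    exact isClosed_biInter fun x _ => isClosed_le continuous_const (LL_cont n x)
  have hUo : IsOpen U := by
    have e : U = ⋂ x ∈ Finset.Icc x0 n, {v | -1 < LL n x v} := by
      ext v
      simp [hU]
    rw [e]
    exact isOpen_biInter_finset fun x _ => isOpen_lt continuous_const (LL_cont n x)
  have t1 := ProbabilityMeasure.limsup_measure_closed_le_of_tendsto (tend n) hFc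
  have t2 := ProbabilityMeasure.le_liminf_measure_open_of_tendsto (tend n) hUo
  have hη' : (0 : ENNReal) < ENNReal.ofReal η := ENNReal.ofReal_pos.mpr hη
  have e1 : ∀ᶠ K : ℕ in atTop, ((PK n K : Measure _) F) < (PG n : Measure _) F +
      ENNReal.ofReal η := by
    refine eventually_lt_of_limsup_lt (lt_of_le_of_lt t1 ?_)
    exact ENNReal.lt_add_right (measure_ne_top _ _) hη'.ne'
  have e2 : ∀ᶠ K : ℕ in atTop, ((PG n : Measure _) U) ≤ (PK n K : Measure _) U +
      ENNReal.ofReal η := by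
    by_cases h0 : (PG n : Measure _) U = 0
    · rw [h0]
      exact Filter.Eventually.of_forall fun K => zero_le
    · have h1 : (PG n : Measure _) U - ENNReal.ofReal η < (PG n : Measure _) U :=
        ENNReal.sub_lt_self (measure_ne_top _ _) h0 hη'.ne'
      filter_upwards [eventually_lt_of_lt_liminf (lt_of_lt_of_le h1 t2)] with K hK
      exact tsub_le_iff_right.mp hK.le
  obtain ⟨K, hK1, hK2, hK3⟩ := (e1.and (e2.and (eventually_ge_atTop 1))).exists
  have pF : (PK n K : Measure _) F = PP {ω | ∀ x ∈ Finset.Icc x0 n, 0 ≤ Ch (Wb K ω) n x} := by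
    change (PP.map (TK n K)) F = _
    rw [Measure.map_apply (meas_TK n K) hFc.measurableSet]
    congr 1
    ext ω
    simp only [Set.mem_preimage, hF, Set.mem_ofPred_eq, Ch_eq]
    rfl
  have pU : (PK n K : Measure _) U = PP {ω | ∀ x ∈ Finset.Icc x0 n, -1 < Ch (Wb K ω) n x} := by
    change (PP.map (TK n K)) U = _
    rw [Measure.map_apply (meas_TK n K) hUo.measurableSet]
    congr 1
    ext ω
    simp only [Set.mem_preimage, hU, Set.mem_ofPred_eq, Ch_eq]
    rfl
  have gF : (PG n : Measure _) F = GA {z | ∀ x ∈ Finset.Icc x0 n, 0 ≤ Ch z n x} := by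
    change (GA.map (TG n)) F = _
    rw [Measure.map_apply (meas_TG n) hFc.measurableSet]
    congr 1
    ext ω
    simp only [Set.mem_preimage, hF, Set.mem_ofPred_eq, Ch_eq]
    rfl
  have gU : (PG n : Measure _) U = GA {z | ∀ x ∈ Finset.Icc x0 n, -1 < Ch z n x} := by
    change (GA.map (TG n)) U = _
    rw [Measure.map_apply (meas_TG n) hUo.measurableSet]
    congr 1
    ext ω
    simp only [Set.mem_preimage, hU, Set.mem_ofPred_eq, Ch_eq]
    rfl
  rw [pF, gF] at hK1
  rw [pU, gU] at hK2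
  refine ⟨K, hK3, ?_, ?_⟩
  · have h := ENNReal.toReal_mono (ENNReal.add_ne_top.mpr ⟨measure_ne_top _ _,
      ENNReal.ofReal_ne_top⟩) hK1.le
    rw [ENNReal.toReal_add (measure_ne_top _ _) ENNReal.ofReal_ne_top,
      ENNReal.toReal_ofReal hη.le] at h
    exact h
  · have h := ENNReal.toReal_mono (ENNReal.add_ne_top.mpr ⟨measure_ne_top _ _,
      ENNReal.ofReal_ne_top⟩) hK2
    rw [ENNReal.toReal_add (measure_ne_top _ _) ENNReal.ofReal_ne_top,
      ENNReal.toReal_ofReal hη.le] at h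
    exact h

end Pool.Agent.H21.GP174
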